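import Pool.Agent.Y732.GW.Core
import Pool.Agent.Results.MP_4a5405_co.WilfHigherDim

/-!
# The extended Wilf inequality with the generators that involve two coordinates

For every `d ≥ 2` and any two coordinates, already the minimal generators with a nonzero entry in
one of these two coordinates suffice for the extended Wilf inequality; more generally there is an
inequality for every set of coordinates, every initial segment containing the holes, and every
positive real weight function.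
-/

set_option autoImplicit false

namespace Pool.Agent.Results.MP_4a5405_co.TwoCoordinates

open Finset Pool.Agent.TH417.GNSWilf
open Pool.Agent.Results.MP_4a5405_co.WilfHigherDim

open scoped Classical

/-- The number of minimal generators of `S` with a nonzero entry in a coordinate of `J`. -/
noncomputable def embDimOn {d : ℕ} (S : AddSubmonoid (Fin d → ℕ)) (J : Finset (Fin d)) : ℕ :=
  {x | x ∈ minGenerators S ∧ ∃ j ∈ J, x j ≠ 0}.ncard

/-- The weight of `x`. -/
noncomputable def wt {d : ℕ} (ω : Fin d → ℝ) (x : Fin d → ℕ) : ℝ := ∑ i, ω i * (x i : ℝ)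

variable {d : ℕ}

theorem share {ω : Fin d → ℝ} (hω : ∀ i, 0 < ω i) (J : Finset (Fin d)) {x : Fin d → ℕ}
    (hx : x ≠ 0) : ∑ j ∈ J, ω j * (x j : ℝ) / phi ω x ≤ if ∃ j ∈ J, x j ≠ 0 then 1 else 0 := by
  have hp := phi_pos hω hx
  rw [← Finset.sum_div]
  split_ifs with h
  · rw [div_le_one hp]
    exact Finset.sum_le_sum_of_subset_of_nonneg (Finset.subset_univ J)
      (fun i _ _ => mul_nonneg (hω i).le (Nat.cast_nonneg _))
  · push Not at h
    have : ∑ j ∈ J, ω j * (x j : ℝ) = 0 := by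
      apply Finset.sum_eq_zero
      intro j hj
      rw [h j hj]
      simp
    rw [this]
    simp

theorem shares {ω : Fin d → ℝ} (hω : ∀ i, 0 < ω i) (S : AddSubmonoid (Fin d → ℕ))
    (J : Finset (Fin d)) (G : Finset (Fin d → ℕ)) (hG : ∀ x, x ∈ G ↔ IsGen S x) :
    ∑ j ∈ J, ∑ x ∈ G, ω j * (x j : ℝ) / phi ω x ≤ (embDimOn S J : ℝ) := by
  have he : embDimOn S J = (G.filter (fun x => ∃ j ∈ J, x j ≠ 0)).card := by
    have h1 : {x | x ∈ minGenerators S ∧ ∃ j ∈ J, x j ≠ 0} =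
        ((G.filter (fun x => ∃ j ∈ J, x j ≠ 0) : Finset (Fin d → ℕ)) : Set (Fin d → ℕ)) := by
      ext x
      rw [Finset.coe_filter]
      simp only [Set.mem_ofPred_eq, hG x]
      exact Iff.rfl
    rw [embDimOn, h1, Set.ncard_coe_finset]
  rw [Finset.sum_comm, he, Finset.card_filter]
  push_cast
  refine Finset.sum_le_sum fun x hx => ?_
  exact share hω J ((hG x).1 hx).2.1

theorem ncard_lev {ω : Fin d → ℝ} (hω : ∀ i, 0 < ω i) (τ : ℝ) :
    {x | wt ω x ≤ τ}.ncard = (lev ω τ).card := by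
  have h1 : {x | wt ω x ≤ τ} = ((lev ω τ : Finset (Fin d → ℕ)) : Set (Fin d → ℕ)) := by
    ext x
    rw [Finset.mem_coe, mem_lev hω]
    exact Iff.rfl
  rw [h1, Set.ncard_coe_finset]

theorem ncard_levS {ω : Fin d → ℝ} (hω : ∀ i, 0 < ω i) (τ : ℝ) (S : AddSubmonoid (Fin d → ℕ)) :
    {x | x ∈ S ∧ wt ω x ≤ τ}.ncard = ((lev ω τ).filter (fun x => x ∈ S)).card := by
  have h1 : {x | x ∈ S ∧ wt ω x ≤ τ} =
      (((lev ω τ).filter (fun x => x ∈ S) : Finset (Fin d → ℕ)) : Set (Fin d → ℕ)) := by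
    ext x
    rw [Finset.mem_coe, Finset.mem_filter, mem_lev hω]
    exact and_comm
  rw [h1, Set.ncard_coe_finset]

/-- weights, strict form -/
theorem weights_lt {ω : Fin d → ℝ} (hω : ∀ i, 0 < ω i) (S : AddSubmonoid (Fin d → ℕ))
    (τ : ℝ) (hτ : 0 ≤ τ) (hgap : ∀ x, x ∉ S → wt ω x ≤ τ) (J : Finset (Fin d))
    (hJ : J.Nonempty) :
    J.card * {x | wt ω x ≤ τ}.ncard < 2 * ({x | x ∈ S ∧ wt ω x ≤ τ}.ncard * embDimOn S J) := by
  obtain ⟨G, hG⟩ := gen_bounded hω S τ hτ hgap
  rw [ncard_lev hω, ncard_levS hω]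
  have h1 : ∑ j ∈ J, ((lev ω τ).card : ℝ) < ∑ j ∈ J,
      2 * (((lev ω τ).filter (fun x => x ∈ S)).card : ℝ) *
      ∑ x ∈ G, ω j * (x j : ℝ) / phi ω x :=
    Finset.sum_lt_sum_of_nonempty hJ fun j _ => core_coord hω S τ hτ hgap G hG j
  rw [← Finset.mul_sum, Finset.sum_const, nsmul_eq_mul] at h1
  have h2 := mul_le_mul_of_nonneg_left (shares hω S J G hG)
    (show (0 : ℝ) ≤ 2 * (((lev ω τ).filter (fun x => x ∈ S)).card : ℝ) by positivity)
  have h3 := h1.trans_le h2
  have h4 : ((J.card * (lev ω τ).card : ℕ) : ℝ) <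
      ((2 * (((lev ω τ).filter (fun x => x ∈ S)).card * embDimOn S J) : ℕ) : ℝ) := by
    push_cast
    linarith
  exact_mod_cast h4

/-- weights, form with the top layer -/
theorem weights_top {ω : Fin d → ℝ} (hω : ∀ i, 0 < ω i) (S : AddSubmonoid (Fin d → ℕ))
    (τ : ℝ) (hτ : 0 ≤ τ) (hgap : ∀ x, x ∉ S → wt ω x ≤ τ) (J : Finset (Fin d)) (δ : ℝ)
    (hδ : ∀ j ∈ J, ∃ x ∈ minGenerators S, x j ≠ 0 ∧ wt ω x ≤ δ) :
    J.card * {x | wt ω x ≤ τ}.ncard ≤ ({x | x ∈ S ∧ wt ω x ≤ τ}.ncard +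
      {x | x ∈ S ∧ τ - δ < wt ω x ∧ wt ω x ≤ τ}.ncard) * embDimOn S J := by
  obtain ⟨G, hG⟩ := gen_bounded hω S τ hτ hgap
  rw [ncard_lev hω, ncard_levS hω]
  set A := (lev ω τ).filter (fun x => x ∈ S) with hA
  have hmemA : ∀ x, x ∈ A ↔ phi ω x ≤ τ ∧ x ∈ S := by
    intro x; rw [hA, Finset.mem_filter, mem_lev hω]
  have htop : {x | x ∈ S ∧ τ - δ < wt ω x ∧ wt ω x ≤ τ}.ncard =
      (A.filter (fun s => ¬ phi ω s + δ ≤ τ)).card := by
    have h1 : {x | x ∈ S ∧ τ - δ < wt ω x ∧ wt ω x ≤ τ} =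
        ((A.filter (fun s => ¬ phi ω s + δ ≤ τ) : Finset (Fin d → ℕ)) : Set (Fin d → ℕ)) := by
      ext x
      rw [Finset.mem_coe, Finset.mem_filter, hmemA]
      constructor
      · rintro ⟨h1, h2, h3⟩
        have h2' : τ - δ < phi ω x := h2
        exact ⟨⟨h3, h1⟩, by push Not; linarith⟩
      · rintro ⟨⟨h3, h1⟩, h2⟩
        push Not at h2
        have h2' : τ - δ < phi ω x := by linarith
        exact ⟨h1, h2', h3⟩
    rw [h1, Set.ncard_coe_finset]
  rw [htop]
  have hj : ∀ j ∈ J, ((lev ω τ).card : ℝ) ≤ ((A.card : ℝ) +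
      ((A.filter (fun s => ¬ phi ω s + δ ≤ τ)).card : ℝ)) *
      ∑ x ∈ G, ω j * (x j : ℝ) / phi ω x := by
    intro j hj
    obtain ⟨γ, hγG, hγj, hmin, h⟩ := Pool.Agent.Y732.GW.core_coord' hω S τ hτ hgap G hG j
    obtain ⟨x, hx, hxj, hxδ⟩ := hδ j hj
    have hγδ : phi ω γ ≤ δ := (hmin x ((hG x).2 hx) hxj).trans hxδ
    refine h.trans (mul_le_mul_of_nonneg_right ?_ ?_)
    · have h2 : (A.filter (fun s => ¬ phi ω s + phi ω γ ≤ τ)).card ≤
          (A.filter (fun s => ¬ phi ω s + δ ≤ τ)).card := by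
        refine Finset.card_le_card fun s hs => ?_
        rw [Finset.mem_filter] at hs ⊢
        refine ⟨hs.1, fun h3 => hs.2 ?_⟩
        linarith
      have h3 : ((A.filter (fun s => ¬ phi ω s + phi ω γ ≤ τ)).card : ℝ) ≤
          ((A.filter (fun s => ¬ phi ω s + δ ≤ τ)).card : ℝ) := by exact_mod_cast h2
      linarith
    · refine Finset.sum_nonneg fun x _ => ?_
      exact div_nonneg (mul_nonneg (hω j).le (Nat.cast_nonneg _)) (phi_nonneg hω x)
  have h1 := Finset.sum_le_sum hj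
  rw [← Finset.mul_sum, Finset.sum_const, nsmul_eq_mul] at h1
  have h2 := mul_le_mul_of_nonneg_left (shares hω S J G hG)
    (show (0 : ℝ) ≤ (A.card : ℝ) + ((A.filter (fun s => ¬ phi ω s + δ ≤ τ)).card : ℝ) by
      positivity)
  have h3 := h1.trans h2
  exact_mod_cast h3

/-- monomial orders: every initial segment that contains the holes -/
theorem orders_lt (S : AddSubmonoid (Fin d → ℕ)) {lt : (Fin d → ℕ) → (Fin d → ℕ) → Prop}
    (hlt : IsAdmissibleOrder d lt) (F : Fin d → ℕ) (hF : ∀ h ∈ holes S, h = F ∨ lt h F)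
    (J : Finset (Fin d)) (hJ : J.Nonempty) :
    J.card * {x | x = F ∨ lt x F}.ncard <
      2 * ({x | x ∈ S ∧ (x = F ∨ lt x F)}.ncard * embDimOn S J) := by
  obtain ⟨ω, hω, hlev⟩ := exists_weights hlt F
  have h := weights_lt hω S (phi ω F) (phi_nonneg hω F)
    (fun x hx => (hlev x).1 (hF x hx)) J hJ
  have h1 : {x | x = F ∨ lt x F} = {x | wt ω x ≤ phi ω F} := by
    ext x
    exact hlev x
  have h2 : {x | x ∈ S ∧ (x = F ∨ lt x F)} = {x | x ∈ S ∧ wt ω x ≤ phi ω F} := by
    ext x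
    exact and_congr_right fun _ => hlev x
  rw [h1, h2]
  exact h

theorem frobenius_lt (S : AddSubmonoid (Fin d → ℕ)) (hfin : (holes S).Finite)
    {lt : (Fin d → ℕ) → (Fin d → ℕ) → Prop}
    (hlt : IsAdmissibleOrder d lt) (F : Fin d → ℕ) (hF : IsFrobenius lt S F)
    (J : Finset (Fin d)) (hJ : J.Nonempty) :
    J.card * (nBelow lt S F + genus S) < 2 * (nBelow lt S F * embDimOn S J) := by
  have h := orders_lt S hlt F hF.2 J hJ
  have h2 : {x | x ∈ S ∧ (x = F ∨ lt x F)} = {x | x ∈ S ∧ lt x F} := by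
    ext x
    constructor
    · rintro ⟨h1, rfl | h2⟩
      · exact absurd h1 hF.1
      · exact ⟨h1, h2⟩
    · rintro ⟨h1, h2⟩
      exact ⟨h1, Or.inr h2⟩
  have h1 : {x | x = F ∨ lt x F} = {x | x ∈ S ∧ lt x F} ∪ holes S := by
    ext x
    constructor
    · intro h3
      by_cases hx : x ∈ S
      · rcases h3 with rfl | h3
        · exact absurd hx hF.1
        · exact Or.inl ⟨hx, h3⟩
      · exact Or.inr hx
    · rintro (⟨_, h3⟩ | h3)
      · exact Or.inr h3
      · exact hF.2 x h3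
  have hfin2 : {x | x ∈ S ∧ lt x F}.Finite :=
    (hlt.finite_predecessors F).subset fun x hx => hx.2
  have hdisj : Disjoint {x | x ∈ S ∧ lt x F} (holes S) := by
    rw [Set.disjoint_left]
    rintro x ⟨h3, _⟩ h4
    exact h4 h3
  rw [h1, h2, Set.ncard_union_eq hdisj hfin2 hfin] at h
  exact h

theorem embDimOn_le (S : AddSubmonoid (Fin d → ℕ)) (hfin : (minGenerators S).Finite)
    (J : Finset (Fin d)) : embDimOn S J ≤ embDim S :=
  Set.ncard_le_ncard (fun _ hx => hx.1) hfin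

/-- Let `S` be a submonoid of `ℕ^d` with finite complement.
(1) (Frobenius element) For every admissible order and every set `J` of at least two coordinates
the extended Wilf inequality holds with only those minimal generators that have a nonzero entry in
`J`; more precisely `|J| (n + g) < 2 n e_J` for every nonempty `J`.
(2) (The question) `n e ≥ N(Fb(S)) + 1` for `d ≥ 2`, `S ≠ ℕ^d`.
(3) For every `F` such that all holes are at most `F`, the inequality of (1) holds for the numbers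
of elements of `ℕ^d` and of `S` that are at most `F`.
(4) For every positive real weight function and every bound `τ` for the weights of the holes the
same holds for the points of weight at most `τ`; and one of the two factors `n` can be replaced
by the number of elements of `S` with weight in `(τ - δ, τ]`, if every coordinate of `J` is nonzero
in some minimal generator of weight at most `δ`. -/
theorem result (d : ℕ) (S : AddSubmonoid (Fin d → ℕ)) (hfin : (holes S).Finite) :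
    (∀ lt : (Fin d → ℕ) → (Fin d → ℕ) → Prop, IsAdmissibleOrder d lt →
      ∀ F : Fin d → ℕ, IsFrobenius lt S F → ∀ J : Finset (Fin d),
        (J.Nonempty → J.card * (nBelow lt S F + genus S) < 2 * (nBelow lt S F * embDimOn S J)) ∧
        (2 ≤ J.card → nBelow lt S F * embDimOn S J ≥ (nBelow lt S F + genus S) + 1)) ∧
    (2 ≤ d → ∀ lt : (Fin d → ℕ) → (Fin d → ℕ) → Prop, IsAdmissibleOrder d lt →
      ∀ F : Fin d → ℕ, IsFrobenius lt S F →
        nBelow lt S F * embDim S ≥ (nBelow lt S F + genus S) + 1) ∧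
    (∀ lt : (Fin d → ℕ) → (Fin d → ℕ) → Prop, IsAdmissibleOrder d lt →
      ∀ F : Fin d → ℕ, (∀ h ∈ holes S, h = F ∨ lt h F) → ∀ J : Finset (Fin d), J.Nonempty →
        J.card * {x | x = F ∨ lt x F}.ncard <
          2 * ({x | x ∈ S ∧ (x = F ∨ lt x F)}.ncard * embDimOn S J)) ∧
    (∀ ω : Fin d → ℝ, (∀ i, 0 < ω i) → ∀ τ : ℝ, 0 ≤ τ → (∀ x, x ∉ S → wt ω x ≤ τ) →
      ∀ J : Finset (Fin d),
        (J.Nonempty → J.card * {x | wt ω x ≤ τ}.ncard <
          2 * ({x | x ∈ S ∧ wt ω x ≤ τ}.ncard * embDimOn S J)) ∧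
        ∀ δ : ℝ, (∀ j ∈ J, ∃ x ∈ minGenerators S, x j ≠ 0 ∧ wt ω x ≤ δ) →
          J.card * {x | wt ω x ≤ τ}.ncard ≤ ({x | x ∈ S ∧ wt ω x ≤ τ}.ncard +
            {x | x ∈ S ∧ τ - δ < wt ω x ∧ wt ω x ≤ τ}.ncard) * embDimOn S J) := by
  refine ⟨fun lt hlt F hF J => ⟨fun hJ => frobenius_lt S hfin hlt F hF J hJ, fun hJ => ?_⟩,
    fun hd lt hlt F hF => (WilfHigherDim.result d (by omega) S hfin lt hlt F hF).2 hd,
    fun lt hlt F hF J hJ => orders_lt S hlt F hF J hJ,
    fun ω hω τ hτ hgap J => ⟨fun hJ => weights_lt hω S τ hτ hgap J hJ,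
      fun δ hδ => weights_top hω S τ hτ hgap J δ hδ⟩⟩
  have h1 := frobenius_lt S hfin hlt F hF J (Finset.card_pos.1 (by omega))
  have h2 : 2 * (nBelow lt S F + genus S) ≤ J.card * (nBelow lt S F + genus S) :=
    Nat.mul_le_mul_right _ hJ
  omega

end Pool.Agent.Results.MP_4a5405_co.TwoCoordinates
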